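import Pool.Agent.H483.IP.Fin
import Pool.Agent.H483.NP.Any

/-!
# The growth rates of `S_F(x) = ∑_{p ≤ x} |a_F(p)|² / p` in the Selberg class, for every functional equation

The elements of the Selberg class `𝒮` are represented by their coefficients, as elements of the ring of
arithmetic functions with Dirichlet convolution, so `F = F₁ F₂` is a product in this ring.

We determine all growth rates of the (nondecreasing) functions `S_F`, up to bounded functions (`result`):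

1. a nondecreasing function `R` on `[1, ∞)` is `S_F + O(1)` for some `F` in `𝒮` if and only if it is `Slow`:
   `R (x + y) ≤ R x + C + K_ε x^ε (y / x)` for `0 ≤ y ≤ x`, with `C` independent of `ε`, for every `ε > 0`
   (the necessity of this condition is the Ramanujan bound);
2. for all these `R` the element `F` may be chosen entire, with real coefficients and with the functional equation of
   `N^s Γ(λ s + 2) F(s)`, root number `1`, where `λ` does not depend on `R`; so `F` has at most `K` primitive factors, `K`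
   independent of `R`, and at EVERY `x ≥ 1` one of these primitive factors `P` has `S_P(x) ≥ R(x) / K² - D`;
3. the functional equation is no obstruction: there is a constant `D₀` such that for EVERY gamma factor
   `∏ Γ(l_j s + ν_j)` of degree `d = 2 ∑ l_j > D₀` and every such `R` there are, for EVERY real `q ≥ q₀` and EVERY `|ε| = 1`,
   an entire `F` in `𝒮` with exactly the data `(q; l_j, ν_j; ε)` and with `S_F = R + O(1)`; it is a product of at most `d`
   primitive elements, and at EVERY `x ≥ 1` one of them has `S_P(x) ≥ R(x) / d² - D`;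
4. so Q1 fails for EVERY functional equation of degree `> D₀` with a large conductor: some `F` in `𝒮` with exactly this
   functional equation has a primitive factor `P` for which `S_P(x) - log log x` is unbounded;
5. for every real `κ ≥ 0` there is an `F` in `𝒮` with `S_F(x) = κ log log x + O(1)`.

Construction: an element of `𝒮` with arbitrarily prescribed coefficients on a sparse set of primes (an interpolation
theorem, `Pool.Agent.H483.IP.exists_elt`), the sparse set being constructed from primes in short intervals; it is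
multiplied by an Euler product which converges absolutely for `Re s > 277/400` and has a functional equation with a
quotient of gamma factors (`Pool.Agent.H483.NP.approx`).
-/

set_option autoImplicit false

open Complex Finset

namespace Pool.Agent.Results.MP_8e9775_nt.GrowthRatesEveryEquation

/-- The completed function `Φ(s) = Q^s ∏_{j < r} Γ(λ_j s + μ_j) F(s)`; here `G` is the entire function
`(s - 1)^m F(s)`. -/
noncomputable def Phi (m : ℕ) (G : ℂ → ℂ) (Q : ℝ) (r : ℕ) (lam : Fin r → ℝ) (μ : Fin r → ℂ) (s : ℂ) : ℂ :=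
  (Q : ℂ) ^ s * (∏ j, Gamma ((lam j : ℂ) * s + μ j)) * (G s / (s - 1) ^ m)

/-- no factor `Γ(λ_j s + μ_j)` has a pole at `s` -/
def NoPole (r : ℕ) (lam : Fin r → ℝ) (μ : Fin r → ℂ) (s : ℂ) : Prop :=
  ∀ j, ∀ t : ℕ, (lam j : ℂ) * s + μ j ≠ -(t : ℂ)

/-- `G` is the function `(s - 1)^m F(s)`, entire of finite order, and `F` satisfies the functional equation with the
data `Q`, `λ_j`, `μ_j`, `ε` (at all points which are not poles). -/
def Continues (a : ArithmeticFunction ℂ) (m : ℕ) (G : ℂ → ℂ) (Q : ℝ) (r : ℕ) (lam : Fin r → ℝ) (μ : Fin r → ℂ)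
    (ε : ℂ) : Prop :=
  Differentiable ℂ G ∧ (∃ A B : ℝ, ∀ z : ℂ, ‖G z‖ ≤ A * Real.exp (‖z‖ ^ B)) ∧
    (∀ s : ℂ, 1 < s.re → G s = (s - 1) ^ m * LSeries (fun n => a n) s) ∧ 0 < Q ∧ (∀ j, 0 < lam j) ∧
      (∀ j, 0 ≤ (μ j).re) ∧ ‖ε‖ = 1 ∧
      ∀ s : ℂ, s ≠ 0 → s ≠ 1 → NoPole r lam μ s → NoPole r lam μ (1 - starRingEnd ℂ s) →
        Phi m G Q r lam μ s = ε * starRingEnd ℂ (Phi m G Q r lam μ (1 - starRingEnd ℂ s))

/-- The Selberg class: `IsSelberg a` says that `F(s) = ∑ a(n) n^{-s}` belongs to it. -/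
structure IsSelberg (a : ArithmeticFunction ℂ) : Prop where
  /-- `a(1) = 1` -/
  one : a 1 = 1
  /-- absolute convergence for `Re s > 1` -/
  conv : ∀ s : ℂ, 1 < s.re → LSeriesSummable (fun n => a n) s
  /-- continuation and functional equation -/
  cont : ∃ (m : ℕ) (G : ℂ → ℂ) (Q : ℝ) (r : ℕ) (lam : Fin r → ℝ) (μ : Fin r → ℂ) (ε : ℂ),
    Continues a m G Q r lam μ ε
  /-- the Ramanujan bound `a(n) ≪ n^ε` -/
  ramanujan : ∀ ε : ℝ, 0 < ε → ∃ C : ℝ, ∀ n : ℕ, 1 ≤ n → ‖a n‖ ≤ C * (n : ℝ) ^ ε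
  /-- the Euler product with the factors `exp (∑_{l ≥ 1} b(p^l) p^{-ls})`, `b(p^l) ≪ p^{lθ}`, `θ < 1/2` -/
  euler : ∃ (b : ℕ → ℂ) (θ C : ℝ), θ < 1 / 2 ∧
    (∀ p l : ℕ, p.Prime → 1 ≤ l → ‖b (p ^ l)‖ ≤ C * ((p ^ l : ℕ) : ℝ) ^ θ) ∧
    ∀ s : ℂ, 1 < s.re → HasProd (fun p : Nat.Primes =>
      exp (∑' l : ℕ, b ((p : ℕ) ^ (l + 1)) * ((p : ℕ) : ℂ) ^ (-(((l + 1 : ℕ) : ℂ) * s))))
      (LSeries (fun n => a n) s)

/-- primitive elements of the Selberg class (`1` is the constant function `1`) -/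
def IsPrimitive (a : ArithmeticFunction ℂ) : Prop :=
  IsSelberg a ∧ a ≠ 1 ∧
    ∀ f g : ArithmeticFunction ℂ, IsSelberg f → IsSelberg g → a = f * g → f = 1 ∨ g = 1

/-- `S_F(x) = ∑_{p ≤ x} |a_F(p)|² / p` -/
noncomputable def S (a : ArithmeticFunction ℂ) (x : ℝ) : ℝ :=
  ∑ p ∈ (Finset.Iic ⌊x⌋₊).filter Nat.Prime, ‖a p‖ ^ 2 / (p : ℝ)

/-- `S_F(x) = R(x) + O(1)` on `[1, ∞)` -/
def HasGrowth (a : ArithmeticFunction ℂ) (R : ℝ → ℝ) : Prop := ∃ D : ℝ, ∀ x : ℝ, 1 ≤ x → |S a x - R x| ≤ D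

/-- The growth condition: bounded jumps and slopes at most `x^(o(1)) / x`. -/
def Slow (R : ℝ → ℝ) : Prop := ∃ C : ℝ, ∀ ε : ℝ, 0 < ε → ∃ K : ℝ, ∀ x y : ℝ, 1 ≤ x → 0 ≤ y → y ≤ x →
  R (x + y) ≤ R x + C + K * x ^ ε * (y / x)

open Pool.Agent.H483 in
lemma isSelberg_iff (a : ArithmeticFunction ℂ) : IsSelberg a ↔ UF.S a := by
  unfold UF.S
  rw [← Pool.Agent.H177R3.Lit.inS_iff]
  constructor
  · rintro ⟨h1, h2, ⟨m, G, Q, r, lam, μ, ε, g1, g2, g3, g4, g5, g6, g7, g8⟩, h4, h5⟩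
    exact ⟨h1, h2, ⟨m, G, g1, g2, g3, Q, r, lam, μ, ε, g4, g5, g6, g7, g8⟩, h4, h5⟩
  · rintro ⟨h1, h2, ⟨m, G, g1, g2, g3, Q, r, lam, μ, ε, g4, g5, g6, g7, g8⟩, h4, h5⟩
    exact ⟨h1, h2, ⟨m, G, Q, r, lam, μ, ε, g1, g2, g3, g4, g5, g6, g7, g8⟩, h4, h5⟩

open Pool.Agent.H483 in
lemma isPrimitive_iff (a : ArithmeticFunction ℂ) : IsPrimitive a ↔ UF.P a := by
  unfold IsPrimitive UF.P
  simp only [isSelberg_iff]

open Pool.Agent.H483 Pool.Agent.H336R4 in
lemma ne_one {a : ArithmeticFunction ℂ} {d : ℝ} (hd : 0 < d) (h : PF.Cls (fun n => a n) d) : a ≠ 1 := by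
  rintro rfl
  have := PF.degAdd _ _ _ d d d h h h (fun s hs => by
    have e := UF.LS_mul UF.S_one UF.S_one hs
    rw [one_mul] at e
    exact e)
  linarith

/-- some primitive factor is large -/
lemma exists_large (M : Multiset (ArithmeticFunction ℂ)) (x T : ℝ) (hM : M ≠ 0)
    (h : T ≤ (M.map fun a => S a x).sum) : ∃ P ∈ M, T ≤ M.card * S P x := by
  by_contra hc
  push Not at hc
  have h0 : 0 < (M.card : ℝ) := by
    have : 0 < M.card := Multiset.card_pos.2 hM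
    exact_mod_cast this
  have h1 : (M.map fun a => S a x).sum < (M.map fun _ => T / M.card).sum := by
    apply Multiset.sum_lt_sum_of_nonempty hM
    intro a ha
    rw [lt_div_iff₀ h0]
    linarith [hc a ha]
  rw [Multiset.map_const', Multiset.sum_replicate, nsmul_eq_mul] at h1
  have h2 : (M.card : ℝ) * (T / M.card) = T := by field_simp
  linarith

lemma slow_of_dbl {R : ℝ → ℝ} (hR : MonotoneOn R (Set.Ici 1)) {C : ℝ} (h : ∀ x : ℝ, 1 ≤ x → R (2 * x) ≤ R x + C) :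
    Slow R := by
  refine ⟨C, fun ε _ => ⟨0, fun x y hx hy hyx => ?_⟩⟩
  have h1 : R (x + y) ≤ R (2 * x) := hR (show (1 : ℝ) ≤ x + y by linarith) (show (1 : ℝ) ≤ 2 * x by linarith) (by linarith)
  have h2 := h x hx
  rw [zero_mul, zero_mul, add_zero]
  linarith

open Pool.Agent.H336R4 in
lemma data_iff {a : ArithmeticFunction ℂ} {m : ℕ} {G : ℂ → ℂ} {Q : ℝ} {k : ℕ} {lam : Fin k → ℝ} {mu : Fin k → ℂ}
    {ω : ℂ} : Continues a m G Q k lam mu ω ↔ PF.Cont (fun n => a n) m G ∧ 0 < Q ∧ PF.FE m G Q k lam mu ω := by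
  constructor
  · rintro ⟨g1, ⟨A, B, g2⟩, g3, g4, g5, g6, g7, g8⟩
    refine ⟨⟨g1, ⟨B, A, g2⟩, g3⟩, g4, g5, g6, g7, fun s hs0 hs1 => ?_⟩
    have hnp : ∀ z : ℂ, 0 < z.re → NoPole k lam mu z := by
      intro z hz j t heq
      have := congrArg Complex.re heq
      simp at this
      have h3 := mul_pos (g5 j) hz
      have h4 := g6 j
      have h5 : (0:ℝ) ≤ t := Nat.cast_nonneg t
      linarith
    exact g8 s (by rintro rfl; simp at hs0) (by rintro rfl; simp at hs1) (hnp s hs0)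
      (hnp _ (by simp; linarith))
  · rintro ⟨⟨g1, ⟨B, A, g2⟩, g3⟩, g4, hFE⟩
    exact ⟨g1, ⟨A, B, g2⟩, g3, g4, hFE.1, hFE.2.1, hFE.2.2.1, fun s h0 h1 hp hp' =>
      Pool.Agent.H177R3.Lit.fe_ext g1 g4 hFE h0 h1 hp hp'⟩

open Pool.Agent.H483 in
/-- large primitive factors, from the degree -/
lemma large_factor {a : ArithmeticFunction ℂ} {d : ℝ} (hd : 0 < d) (hcls : Pool.Agent.H336R4.PF.Cls (fun n => a n) d)
    {R : ℝ → ℝ} {D : ℝ} (hD : ∀ x : ℝ, 1 ≤ x → |S a x - R x| ≤ D) {M : Multiset (ArithmeticFunction ℂ)}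
    (hM1 : ∀ p ∈ M, UF.P p) (hM2 : M.prod = a) :
    (M.card : ℝ) ≤ d ∧ ∀ x : ℝ, 1 ≤ x → ∃ P ∈ M, R x / d ^ 2 - |D| ≤ S P x := by
  have hcard : (M.card : ℝ) ≤ d := IP.card_le M hM1 _ (by rw [hM2]; exact hcls)
  have hne : M ≠ 0 := by
    intro h0
    rw [h0, Multiset.prod_zero] at hM2
    exact ne_one hd hcls hM2.symm
  have hcard1 : (1 : ℝ) ≤ M.card := by
    have : 1 ≤ M.card := Multiset.card_pos.2 hne
    exact_mod_cast this
  refine ⟨hcard, fun x hx => ?_⟩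
  have h1 : S a x ≤ M.card * (M.map fun a => S a x).sum := by
    have := IP.SF_prod M (fun a ha => (hM1 a ha).1) x
    rw [hM2] at this
    exact this
  have h2 := abs_le.1 (hD x hx)
  have h2' : R x - |D| ≤ S a x := by
    have := le_abs_self D
    have h4 : -D ≤ S a x - R x := h2.1
    linarith
  obtain ⟨P, hP, hP2⟩ := exists_large M x _ hne (le_refl (M.map fun a => S a x).sum)
  refine ⟨P, hP, ?_⟩
  have hSP : 0 ≤ S P x := IP.SF_nonneg P x
  have hK1 : (1 : ℝ) ≤ d := hcard1.trans hcard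
  have h5 : R x - |D| ≤ d ^ 2 * S P x := by
    calc R x - |D| ≤ M.card * (M.map fun a => S a x).sum := h2'.trans h1
      _ ≤ M.card * (M.card * S P x) := mul_le_mul_of_nonneg_left hP2 (by linarith)
      _ = (M.card : ℝ) ^ 2 * S P x := by ring
      _ ≤ d ^ 2 * S P x := mul_le_mul_of_nonneg_right (pow_le_pow_left₀ (by linarith) hcard 2) hSP
  have hK2 : 1 ≤ d ^ 2 := one_le_pow₀ hK1
  have h6 : |D| / d ^ 2 ≤ |D| := div_le_self (abs_nonneg D) hK2
  have h7 : (R x - |D|) / d ^ 2 ≤ S P x := by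
    rw [div_le_iff₀ (by linarith)]
    linarith
  rw [sub_div] at h7
  linarith

lemma hlog3 : ∀ z : ℝ, 3 ≤ z → 1 ≤ Real.log z := by
  intro z hz
  rw [Real.le_log_iff_exp_le (by linarith)]
  have := Real.exp_one_lt_d9
  linarith

lemma loglog_mono' {κ : ℝ} (hκ : 0 ≤ κ) : MonotoneOn (fun x : ℝ => κ * Real.log (Real.log (max x 3))) (Set.Ici 1) := by
  intro x _ y _ hxy
  have h1 : max x 3 ≤ max y 3 := max_le_max_right 3 hxy
  have h2 : (3 : ℝ) ≤ max x 3 := le_max_right _ _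
  apply mul_le_mul_of_nonneg_left _ hκ
  have h3 := hlog3 _ h2
  exact Real.log_le_log (by linarith) (Real.log_le_log (by linarith) h1)

lemma loglog_slow' {κ : ℝ} (hκ : 0 ≤ κ) : Slow (fun x : ℝ => κ * Real.log (Real.log (max x 3))) := by
  refine slow_of_dbl (loglog_mono' hκ) (C := κ * Real.log 2) fun x hx => ?_
  set z := max x 3 with hz
  have h2 : (3 : ℝ) ≤ z := le_max_right _ _
  have h3 := hlog3 _ h2
  have h4 : max (2 * x) 3 ≤ 2 * z := max_le (by linarith [le_max_left x 3]) (by linarith)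
  have h5 : Real.log (max (2 * x) 3) ≤ 2 * Real.log z := by
    calc Real.log (max (2 * x) 3) ≤ Real.log (2 * z) := Real.log_le_log (by positivity) h4
      _ = Real.log 2 + Real.log z := Real.log_mul (by norm_num) (by linarith)
      _ ≤ 2 * Real.log z := by linarith [Real.log_two_lt_d9]
  have h6 : Real.log (Real.log (max (2 * x) 3)) ≤ Real.log 2 + Real.log (Real.log z) := by
    calc Real.log (Real.log (max (2 * x) 3)) ≤ Real.log (2 * Real.log z) :=
          Real.log_le_log (by linarith [hlog3 _ (le_max_right (2 * x) 3)]) h5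
      _ = _ := Real.log_mul (by norm_num) (by linarith)
  show κ * Real.log (Real.log (max (2 * x) 3)) ≤ κ * Real.log (Real.log z) + κ * Real.log 2
  nlinarith

/-- the assertion 3 with the constant `D₀` -/
def AllEquations (D₀ : ℝ) : Prop :=
  ∀ (r : ℕ) (l : Fin r → ℝ) (ν : Fin r → ℂ), (∀ j, 0 < l j) → (∀ j, 0 ≤ (ν j).re) → D₀ < 2 * ∑ j, l j →
      ∀ R : ℝ → ℝ, MonotoneOn R (Set.Ici 1) → Slow R → ∃ q₀ : ℝ, ∀ q : ℝ, q₀ ≤ q → ∀ ε : ℂ, ‖ε‖ = 1 →
      ∃ (a : ArithmeticFunction ℂ) (M : Multiset (ArithmeticFunction ℂ)) (G : ℂ → ℂ),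
        IsSelberg a ∧ HasGrowth a R ∧ Continues a 0 G q r l ν ε ∧
        (∀ P ∈ M, IsPrimitive P) ∧ M.prod = a ∧ (Multiset.card M : ℝ) ≤ 2 * ∑ j, l j ∧
        ∃ D : ℝ, ∀ x : ℝ, 1 ≤ x → ∃ P ∈ M, R x / (2 * ∑ j, l j) ^ 2 - D ≤ S P x

open Pool.Agent.H483 in
theorem all_equations : ∃ D₀ : ℝ, 0 ≤ D₀ ∧ AllEquations D₀ := by
  obtain ⟨Q, hQ, hE⟩ := IP.grow_elt
  have hQ0 : (0 : ℝ) < Q := by
    have : 0 < Q := by omega
    exact_mod_cast this
  have hlam : (0 : ℝ) < 4 * (Q : ℝ) := by positivity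
  refine ⟨8 * (Q : ℝ) + 400 / 77, by positivity, fun r l ν hl hν hdeg R hR hs => ?_⟩
  obtain ⟨N, y, hN, hy, D, hD⟩ := hE R (fun x y hx hxy => hR hx (le_trans hx hxy) hxy) hs
  set f := IP.toAF (Pool.Agent.H878.BCSel.ff y) with hf
  have hS := hy.toS hN hlam
  obtain ⟨G, g1, g2, g3, g4⟩ := hy.cont
  have hcont : Continues f 0 G N 1 (fun _ => 4 * (Q : ℝ)) (fun _ => 2) 1 := by
    refine ⟨g1, g2, fun s hs => ?_, hN, fun _ => hlam, fun _ => by norm_num, by simp, fun s _ _ hs1 hs2 => ?_⟩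
    · rw [g3 s hs, IP.LS_toAF]; simp
    · have := g4 s (fun t => hs1 0 t) (fun t => hs2 0 t)
      unfold Phi
      simpa using this
  obtain ⟨c1, -, c2⟩ := data_iff.1 hcont
  obtain ⟨q₀, hq₀, H⟩ := NP.any_fe hS c1 hN c2 hl hν (by
    rw [Fin.sum_univ_one]
    linarith)
  refine ⟨q₀, fun q hq ε hε => ?_⟩
  obtain ⟨a, G', a1, a2, a3, a4⟩ := H q hq ε hε
  have hq0 : 0 < q := lt_of_lt_of_le hq₀ hq
  have hcls := NP.mul_S hS a1 a3 hq0 a4
  have hS' : UF.S (f * NP.HA a) := Pool.Agent.H177R3.PFV.cls_ss hcls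
  obtain ⟨M, hM1, hM2⟩ := UF.factor hS'
  obtain ⟨C, hC⟩ := NP.CR_two hS hS a1 (by norm_num) a2 a2
  have hgrow : ∀ x : ℝ, 1 ≤ x → |S (f * NP.HA a) x - R x| ≤ C + D := by
    intro x hx
    have h1 := hC x
    rw [IP.CR_self, IP.CR_self, ← Complex.ofReal_sub, Complex.norm_real, Real.norm_eq_abs] at h1
    have h2 : |S f x - R x| ≤ D := hD x hx
    have h3 : S (f * NP.HA a) x - R x = (IP.SF (f * NP.HA a) x - IP.SF f x) + (S f x - R x) := by
      show IP.SF (f * NP.HA a) x - R x = (IP.SF (f * NP.HA a) x - IP.SF f x) + (IP.SF f x - R x)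
      ring
    rw [h3]
    exact (abs_add_le _ _).trans (add_le_add h1 h2)
  have hd0 : 0 < 2 * ∑ j, l j := by linarith
  obtain ⟨l1, l2⟩ := large_factor hd0 hcls hgrow hM1 hM2
  exact ⟨f * NP.HA a, M, G', (isSelberg_iff _).2 hS', ⟨C + D, hgrow⟩, data_iff.2 ⟨a3, hq0, a4⟩,
    fun P hP => (isPrimitive_iff P).2 (hM1 P hP), hM2, l1, |C + D|, l2⟩

open Pool.Agent.H483 in
/-- **Main theorem.** -/
theorem result :
    -- 1. the growth rates of the functions `S_F`
    (∀ R : ℝ → ℝ, MonotoneOn R (Set.Ici 1) → ((∃ a, IsSelberg a ∧ HasGrowth a R) ↔ Slow R)) ∧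
    -- 2. entire elements with one gamma factor, and large primitive factors at every point
    (∃ (lam : ℝ) (K : ℕ), 0 < lam ∧ 1 ≤ K ∧ ∀ R : ℝ → ℝ, MonotoneOn R (Set.Ici 1) → Slow R →
      ∃ (a : ArithmeticFunction ℂ) (M : Multiset (ArithmeticFunction ℂ)) (G : ℂ → ℂ) (N : ℝ),
        IsSelberg a ∧ HasGrowth a R ∧ (∀ n, (a n).im = 0) ∧ Continues a 0 G N 1 (fun _ => lam) (fun _ => 2) 1 ∧
        (∀ P ∈ M, IsPrimitive P) ∧ M.prod = a ∧ Multiset.card M ≤ K ∧
        ∃ D : ℝ, ∀ x : ℝ, 1 ≤ x → ∃ P ∈ M, R x / (K : ℝ) ^ 2 - D ≤ S P x) ∧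
    -- 3. every functional equation of large degree and conductor
    (∃ D₀ : ℝ, ∀ (r : ℕ) (l : Fin r → ℝ) (ν : Fin r → ℂ), (∀ j, 0 < l j) → (∀ j, 0 ≤ (ν j).re) → D₀ < 2 * ∑ j, l j →
      ∀ R : ℝ → ℝ, MonotoneOn R (Set.Ici 1) → Slow R → ∃ q₀ : ℝ, ∀ q : ℝ, q₀ ≤ q → ∀ ε : ℂ, ‖ε‖ = 1 →
      ∃ (a : ArithmeticFunction ℂ) (M : Multiset (ArithmeticFunction ℂ)) (G : ℂ → ℂ),
        IsSelberg a ∧ HasGrowth a R ∧ Continues a 0 G q r l ν ε ∧
        (∀ P ∈ M, IsPrimitive P) ∧ M.prod = a ∧ (Multiset.card M : ℝ) ≤ 2 * ∑ j, l j ∧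
        ∃ D : ℝ, ∀ x : ℝ, 1 ≤ x → ∃ P ∈ M, R x / (2 * ∑ j, l j) ^ 2 - D ≤ S P x) ∧
    -- 4. Q1 fails for every functional equation of large degree and conductor
    (∃ D₀ : ℝ, ∀ (r : ℕ) (l : Fin r → ℝ) (ν : Fin r → ℂ), (∀ j, 0 < l j) → (∀ j, 0 ≤ (ν j).re) → D₀ < 2 * ∑ j, l j →
      ∃ q₀ : ℝ, ∀ q : ℝ, q₀ ≤ q → ∀ ε : ℂ, ‖ε‖ = 1 → ∃ (a P b : ArithmeticFunction ℂ) (G : ℂ → ℂ),
        IsSelberg a ∧ Continues a 0 G q r l ν ε ∧ IsPrimitive P ∧ IsSelberg b ∧ a = P * b ∧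
        ¬ ∃ C : ℝ, ∀ x : ℝ, 3 ≤ x → |S P x - Real.log (Real.log x)| ≤ C) ∧
    -- 5. all real multiples of `log log x`
    ∀ κ : ℝ, 0 ≤ κ → ∃ a, IsSelberg a ∧ ∃ D : ℝ, ∀ x : ℝ, 3 ≤ x → |S a x - κ * Real.log (Real.log x)| ≤ D := by
  obtain ⟨Q, hQ, hE⟩ := IP.grow_elt
  have hQ0 : (0 : ℝ) < Q := by
    have : 0 < Q := by omega
    exact_mod_cast this
  have hlam : (0 : ℝ) < 4 * (Q : ℝ) := by positivity
  have hmono : ∀ R : ℝ → ℝ, MonotoneOn R (Set.Ici 1) → ∀ x y : ℝ, 1 ≤ x → x ≤ y → R x ≤ R y :=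
    fun R hR x y hx hxy => hR hx (le_trans hx hxy) hxy
  have hsuff : ∀ R : ℝ → ℝ, MonotoneOn R (Set.Ici 1) → Slow R → ∃ a, IsSelberg a ∧ HasGrowth a R := by
    intro R hR hs
    obtain ⟨N, y, hN, hy, D, hD⟩ := hE R (hmono R hR) hs
    exact ⟨_, (isSelberg_iff _).2 (hy.toS hN hlam), D, hD⟩
  obtain ⟨D₀, hD₀, hall⟩ := all_equations
  refine ⟨fun R hR => ⟨?_, hsuff R hR⟩, ⟨4 * (Q : ℝ), 8 * Q, hlam, by omega, fun R hR hs => ?_⟩, ⟨D₀, hall⟩,
    ⟨D₀, fun r l ν hl hν hdeg => ?_⟩, fun κ hκ => ?_⟩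
  · rintro ⟨a, ha, D, hD⟩
    exact IP.slow_of ha.ramanujan hD
  · obtain ⟨N, y, hN, hy, D, hD⟩ := hE R (hmono R hR) hs
    set a := IP.toAF (Pool.Agent.H878.BCSel.ff y) with ha
    have hS := hy.toS hN hlam
    have hcls := hy.cls hN hlam
    obtain ⟨M, hM1, hM2⟩ := UF.factor hS
    have hcard : (M.card : ℝ) ≤ 2 * (4 * (Q : ℝ)) := IP.card_le M hM1 _ (by rw [hM2]; exact hcls)
    have hcard' : M.card ≤ 8 * Q := by
      have h1 : (M.card : ℝ) ≤ ((8 * Q : ℕ) : ℝ) := by push_cast; linarith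
      exact_mod_cast h1
    have hne : M ≠ 0 := by
      intro h0
      rw [h0, Multiset.prod_zero] at hM2
      exact ne_one (by positivity) hcls hM2.symm
    have hcard1 : (1 : ℝ) ≤ M.card := by
      have : 1 ≤ M.card := Multiset.card_pos.2 hne
      exact_mod_cast this
    obtain ⟨G, g1, g2, g3, g4⟩ := hy.cont
    refine ⟨a, M, G, N, (isSelberg_iff _).2 hS, ⟨D, hD⟩, fun n => ?_, ?_, fun P hP => (isPrimitive_iff P).2 (hM1 P hP),
      hM2, hcard', |D|, fun x hx => ?_⟩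
    · by_cases hn : n = 0
      · rw [hn]; simp
      · rw [ha, IP.toAF_apply _ hn]
        exact Complex.ofReal_im _
    · refine ⟨g1, g2, fun s hs => ?_, hN, fun _ => hlam, fun _ => by norm_num, by simp, fun s _ _ hs1 hs2 => ?_⟩
      · rw [g3 s hs, IP.LS_toAF]; simp
      · have := g4 s (fun t => hs1 0 t) (fun t => hs2 0 t)
        unfold Phi
        simpa using this
    · have h1 : S a x ≤ M.card * (M.map fun a => S a x).sum := by
        have := IP.SF_prod M (fun a ha => (hM1 a ha).1) x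
        rw [hM2] at this
        exact this
      have h2 := abs_le.1 (hD x hx)
      have h2' : R x - |D| ≤ S a x := by
        have := le_abs_self D
        have h3 : S a x - R x ≤ D := h2.2
        have h4 : -D ≤ S a x - R x := h2.1
        linarith
      obtain ⟨P, hP, hP2⟩ := exists_large M x _ hne (le_refl (M.map fun a => S a x).sum)
      refine ⟨P, hP, ?_⟩
      have hSP : 0 ≤ S P x := IP.SF_nonneg P x
      have hK : (M.card : ℝ) ≤ ((8 * Q : ℕ) : ℝ) := by exact_mod_cast hcard'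
      have hK1 : (1 : ℝ) ≤ ((8 * Q : ℕ) : ℝ) := hcard1.trans hK
      set K : ℝ := ((8 * Q : ℕ) : ℝ) with hKdef
      have h5 : R x - |D| ≤ K ^ 2 * S P x := by
        calc R x - |D| ≤ M.card * (M.map fun a => S a x).sum := h2'.trans h1
          _ ≤ M.card * (M.card * S P x) := mul_le_mul_of_nonneg_left hP2 (by linarith)
          _ = (M.card : ℝ) ^ 2 * S P x := by ring
          _ ≤ K ^ 2 * S P x := mul_le_mul_of_nonneg_right (pow_le_pow_left₀ (by linarith) hK 2) hSP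
      have hK2 : 1 ≤ K ^ 2 := one_le_pow₀ hK1
      have h6 : |D| / K ^ 2 ≤ |D| := div_le_self (abs_nonneg D) hK2
      have h7 : (R x - |D|) / K ^ 2 ≤ S P x := by
        rw [div_le_iff₀ (by linarith)]
        linarith
      rw [sub_div] at h7
      linarith
  · -- Q1 fails for every functional equation
    set d : ℝ := 2 * ∑ j, l j with hd
    have hd0 : 0 < d := lt_of_le_of_lt hD₀ hdeg
    obtain ⟨q₀, H⟩ := hall r l ν hl hν hdeg _ (loglog_mono' (κ := 2 * d ^ 2) (by positivity))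
      (loglog_slow' (κ := 2 * d ^ 2) (by positivity))
    refine ⟨q₀, fun q hq ε hε => ?_⟩
    obtain ⟨a, M, G, b1, -, b3, b4, b5, -, D, b7⟩ := H q hq ε hε
    have key : ∃ P ∈ M, ¬ ∃ C : ℝ, ∀ x : ℝ, 3 ≤ x → |S P x - Real.log (Real.log x)| ≤ C := by
      by_contra hcon
      push Not at hcon
      choose! C hC using hcon
      have ht : Filter.Tendsto (fun x : ℝ => Real.log (Real.log x)) Filter.atTop Filter.atTop :=
        Real.tendsto_log_atTop.comp Real.tendsto_log_atTop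
      obtain ⟨x, h1, h2⟩ := ((ht.eventually_gt_atTop ((M.map fun P => |C P|).sum + D)).and
        (Filter.eventually_ge_atTop 3)).exists
      obtain ⟨P, hP, h3⟩ := b7 x (by linarith)
      have h4 : 2 * d ^ 2 * Real.log (Real.log (max x 3)) / d ^ 2 = 2 * Real.log (Real.log x) := by
        rw [max_eq_left h2]
        field_simp
      have h5 : 2 * Real.log (Real.log x) - D ≤ S P x := by rw [← h4]; exact h3
      have h6 := (abs_le.1 (hC P hP x h2)).2
      have h7 : |C P| ≤ (M.map fun P => |C P|).sum := by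
        apply Multiset.single_le_sum
        · intro z hz
          obtain ⟨w, -, rfl⟩ := Multiset.mem_map.1 hz
          exact abs_nonneg _
        · exact Multiset.mem_map_of_mem _ hP
      have h8 := le_abs_self (C P)
      linarith
    classical
    obtain ⟨P, hP, hP2⟩ := key
    refine ⟨a, P, (M.erase P).prod, G, b1, b3, b4 P hP, (isSelberg_iff _).2 (UF.S.prod fun p hp =>
      (isSelberg_iff p).1 (b4 p (Multiset.mem_of_mem_erase hp)).1), ?_, hP2⟩
    rw [← b5, Multiset.prod_erase hP]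
  · -- `κ log log x`
    obtain ⟨a, ha, D, hD⟩ := hsuff _ (loglog_mono' hκ) (loglog_slow' hκ)
    refine ⟨a, ha, D, fun x hx => ?_⟩
    have h1 : |S a x - κ * Real.log (Real.log (max x 3))| ≤ D := hD x (by linarith)
    rw [max_eq_left hx] at h1
    exact h1

end Pool.Agent.Results.MP_8e9775_nt.GrowthRatesEveryEquation
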