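import Pool.Agent.H616.SP.Cls

/-!
# Selberg's normality conjecture fails in the polynomial Selberg class `𝒮^poly`

`𝒮^poly` is the set of the elements `F` of the Selberg class with a polynomial Euler product: for some `m` every
local factor is `F_p(s) = 1 / P_p(p^{-s})` with a polynomial `P_p` of degree at most `m`. All L-functions of
arithmetic origin are of this form.

Elements are represented by their coefficients, as arithmetic functions with Dirichlet convolution.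

The theorem:

1. every element of `𝒮^poly` is a product of primitive elements of `𝒮^poly`;
2. for EVERY gamma factor `∏ Γ(lam_j s + mu_j)` (`lam_j > 0`, `Re mu_j ≥ 0`) of degree `d = 2 ∑ lam_j > 400/77`, every
   `|ω| = 1` and every real `Q ≥ Q₀` there is an entire element `F ≠ 1` of `𝒮^poly` with exactly this functional
   equation whose coefficients are COMPLETELY MULTIPLICATIVE with `|a(n)| ≤ 1`
   (so `F(s) = ∏ (1 - a(p) p^{-s})⁻¹`), the Dirichlet series is absolutely convergent and has no zeros in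
   `Re s > 277/400`, and every divisor `P` of `F` in `𝒮^poly` is completely multiplicative, satisfies
   `a_P(p) ∈ {0, a_F(p)}` for all primes `p`, and has bounded `S_P(x)`;
3. uncountably many primitive elements `P` of `𝒮^poly` have completely multiplicative coefficients with `|a_P(n)| ≤ 1`
   and a bounded `S_P(x)`, so that `S_P(x) - log log x` is unbounded: the normality conjecture fails for them.
-/

set_option autoImplicit false

open Complex Finset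

namespace Pool.Agent.Results.MP_8e9775_nt.PolynomialSelbergClass

/-- The completed function `Φ(s) = Q^s ∏_{j < k} Γ(lam_j s + mu_j) F(s)`; here `G` is the entire function
`(s - 1)^m F(s)`. -/
noncomputable def Phi (m : ℕ) (G : ℂ → ℂ) (Q : ℝ) (k : ℕ) (lam : Fin k → ℝ) (mu : Fin k → ℂ) (s : ℂ) : ℂ :=
  (Q : ℂ) ^ s * (∏ j, Gamma ((lam j : ℂ) * s + mu j)) * (G s / (s - 1) ^ m)

/-- no factor `Γ(lam_j s + mu_j)` has a pole at `s` -/
def NoPole (k : ℕ) (lam : Fin k → ℝ) (mu : Fin k → ℂ) (s : ℂ) : Prop :=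
  ∀ j, ∀ t : ℕ, (lam j : ℂ) * s + mu j ≠ -(t : ℂ)

/-- The Selberg class: `IsSelberg a` says that `F(s) = ∑ a(n) n^{-s}` belongs to it. -/
structure IsSelberg (a : ArithmeticFunction ℂ) : Prop where
  /-- `a(1) = 1` -/
  one : a 1 = 1
  /-- absolute convergence for `Re s > 1` -/
  conv : ∀ s : ℂ, 1 < s.re → LSeriesSummable (fun n => a n) s
  /-- continuation and functional equation -/
  cont : ∃ (m : ℕ) (G : ℂ → ℂ), Differentiable ℂ G ∧
    (∃ A B : ℝ, ∀ z : ℂ, ‖G z‖ ≤ A * Real.exp (‖z‖ ^ B)) ∧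
    (∀ s : ℂ, 1 < s.re → G s = (s - 1) ^ m * LSeries (fun n => a n) s) ∧
    ∃ (Q : ℝ) (k : ℕ) (lam : Fin k → ℝ) (mu : Fin k → ℂ) (ε : ℂ), 0 < Q ∧ (∀ j, 0 < lam j) ∧
      (∀ j, 0 ≤ (mu j).re) ∧ ‖ε‖ = 1 ∧
      ∀ s : ℂ, s ≠ 0 → s ≠ 1 → NoPole k lam mu s → NoPole k lam mu (1 - starRingEnd ℂ s) →
        Phi m G Q k lam mu s = ε * starRingEnd ℂ (Phi m G Q k lam mu (1 - starRingEnd ℂ s))
  /-- the Ramanujan bound `a(n) ≪ n^ε` -/
  ramanujan : ∀ ε : ℝ, 0 < ε → ∃ C : ℝ, ∀ n : ℕ, 1 ≤ n → ‖a n‖ ≤ C * (n : ℝ) ^ ε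
  /-- the Euler product with the factors `exp (∑_{l ≥ 1} b(p^l) p^{-ls})`, `b(p^l) ≪ p^{lθ}`, `θ < 1/2` -/
  euler : ∃ (b : ℕ → ℂ) (θ C : ℝ), θ < 1 / 2 ∧
    (∀ p l : ℕ, p.Prime → 1 ≤ l → ‖b (p ^ l)‖ ≤ C * ((p ^ l : ℕ) : ℝ) ^ θ) ∧
    ∀ s : ℂ, 1 < s.re → HasProd (fun p : Nat.Primes =>
      exp (∑' l : ℕ, b ((p : ℕ) ^ (l + 1)) * ((p : ℕ) : ℂ) ^ (-(((l + 1 : ℕ) : ℂ) * s))))
      (LSeries (fun n => a n) s)

/-- polynomial Euler product: `a` is multiplicative, and for some `m` and every prime `p` the local factor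
`F_p = ∑_k a(p^k) X^k`, `X = p^{-s}`, is the inverse of a polynomial of degree at most `m` -/
def HasPolynomialEulerProduct (a : ArithmeticFunction ℂ) : Prop :=
  a.IsMultiplicative ∧ ∃ m : ℕ, ∀ p : ℕ, p.Prime → ∃ P : Polynomial ℂ, P.natDegree ≤ m ∧
    PowerSeries.mk (fun k => a (p ^ k)) * (P : PowerSeries ℂ) = 1

/-- the polynomial Selberg class `𝒮^poly` -/
def IsPoly (a : ArithmeticFunction ℂ) : Prop := IsSelberg a ∧ HasPolynomialEulerProduct a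

/-- primitive elements of `𝒮^poly` -/
def IsPrimitive (a : ArithmeticFunction ℂ) : Prop :=
  IsPoly a ∧ a ≠ 1 ∧ ∀ f g : ArithmeticFunction ℂ, IsPoly f → IsPoly g → a = f * g → f = 1 ∨ g = 1

/-- completely multiplicative functions -/
def CompletelyMultiplicative (a : ArithmeticFunction ℂ) : Prop := ∀ m n : ℕ, a (m * n) = a m * a n

/-- `S_F(x) = ∑_{p ≤ x} |a_F(p)|² / p` -/
noncomputable def S (a : ArithmeticFunction ℂ) (x : ℝ) : ℝ :=
  ∑ p ∈ (Finset.Iic ⌊x⌋₊).filter Nat.Prime, ‖a p‖ ^ 2 / (p : ℝ)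

open Pool.Agent.H616 in
lemma isSelberg_iff (a : ArithmeticFunction ℂ) : IsSelberg a ↔ SP.IsSel a :=
  ⟨fun h => ⟨h.one, h.conv, h.cont, h.ramanujan, h.euler⟩, fun h => ⟨h.one, h.conv, h.cont, h.ramanujan, h.euler⟩⟩

open Pool.Agent.H616 in
lemma isPoly_iff (a : ArithmeticFunction ℂ) : IsPoly a ↔ SP.SPo a := by
  unfold IsPoly SP.SPo HasPolynomialEulerProduct SP.LocPoly
  rw [isSelberg_iff]

open Pool.Agent.H616 in
lemma isPrimitive_iff (a : ArithmeticFunction ℂ) : IsPrimitive a ↔ SP.PPo a := by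
  unfold IsPrimitive SP.PPo
  simp only [isPoly_iff]

/-- bounded partial sums -/
lemma S_le {a : ArithmeticFunction ℂ} {C : ℝ}
    (h : ∀ T : Finset ℕ, ∑ p ∈ T.filter Nat.Prime, ‖a p‖ ^ 2 / (p : ℝ) ≤ C) (x : ℝ) : S a x ≤ C :=
  h _

/-- bounded sums are far from `log log x` -/
lemma not_loglog {a : ArithmeticFunction ℂ} (h : ∃ C : ℝ, ∀ x : ℝ, S a x ≤ C) :
    ¬ ∃ C x₀ : ℝ, ∀ x : ℝ, x₀ ≤ x → |S a x - Real.log (Real.log x)| ≤ C := by
  rintro ⟨C, x₀, hC⟩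
  obtain ⟨B, hB⟩ := h
  have h1 := (Real.tendsto_log_atTop.comp Real.tendsto_log_atTop).eventually_gt_atTop (B + C)
  obtain ⟨x, hx1, hx2⟩ := (h1.and (Filter.eventually_ge_atTop x₀)).exists
  have h2 := (abs_le.1 (hC x hx2)).1
  have h3 := hB x
  simp only [Function.comp_apply] at hx1
  linarith

section

open Pool.Agent.H616

/-- the properties of one member of the family, as used below -/
lemma member {k : ℕ} {lam : Fin k → ℝ} {mu : Fin k → ℂ} (hl : ∀ j, 0 < lam j) (hm : ∀ j, 0 ≤ (mu j).re)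
    (hd : 0 < ∑ j, lam j) {N : ℂ → Prop} {Pol : ℂ → Polynomial ℂ} {Q : ℝ} (hQ : 0 < Q) {ω : ℂ} (hω : ‖ω‖ = 1) {f : ℕ → ℂ} {al : ℕ → Fin 1 → ℂ} {P0 : ℝ} {G : ℂ → ℂ}
    (M : SP.Mem k lam mu 1 N Pol Q ω f al P0 G) :
    IsPoly (SP.af f M.f0) ∧ SP.af f M.f0 ≠ 1 ∧ CompletelyMultiplicative (SP.af f M.f0) ∧ (∀ n, ‖SP.af f M.f0 n‖ ≤ 1) ∧
      (∃ G : ℂ → ℂ, Differentiable ℂ G ∧ (∃ A B : ℝ, ∀ z : ℂ, ‖G z‖ ≤ A * Real.exp (‖z‖ ^ B)) ∧
        (∀ s : ℂ, 277 / 400 < s.re → LSeriesSummable (fun n => SP.af f M.f0 n) s ∧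
          G s = LSeries (fun n => SP.af f M.f0 n) s ∧ G s ≠ 0 ∧
          HasProd (fun p : Nat.Primes => (1 - SP.af f M.f0 p * ((p : ℕ) : ℂ) ^ (-s))⁻¹) (G s)) ∧
        ∀ s : ℂ, NoPole k lam mu s → NoPole k lam mu (1 - starRingEnd ℂ s) →
          Phi 0 G Q k lam mu s = ω * starRingEnd ℂ (Phi 0 G Q k lam mu (1 - starRingEnd ℂ s))) ∧
      (∃ C : ℝ, ∀ T : Finset ℕ, ∑ p ∈ T.filter Nat.Prime, ‖SP.af f M.f0 p‖ ^ 2 / (p : ℝ) ≤ C) ∧
      Pool.Agent.H336R4.PF.Cls (fun n => SP.af f M.f0 n) (2 * ∑ j, lam j) := by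
  have hpk : ∀ p k : ℕ, p.Prime → f (p ^ k) = al p 0 ^ k := by
    intro p k hp
    have h1 := M.loc p hp
    rw [Fin.prod_univ_one] at h1
    exact congrFun (SP.mk_eq_of_mul h1 (SP.mk_pow_mul (al p 0))) k
  have hp1 : ∀ p : ℕ, p.Prime → f p = al p 0 := by
    intro p hp
    have := hpk p 1 hp
    rwa [pow_one, pow_one] at this
  have hcm : CompletelyMultiplicative (SP.af f M.f0) := by
    apply SP.CM_of M.isMul
    intro p k hp
    rw [SP.af_apply, SP.af_apply, hpk p k hp, hp1 p hp]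
  refine ⟨(isPoly_iff _).2 (M.spo hQ hω hl hm), M.ne_one hQ hω hl hm hd, hcm, ?_, ?_, M.sqB, M.cls hQ hω hl hm⟩
  · apply SP.CM.norm_le hcm M.f1
    intro p hp
    rw [SP.af_apply, hp1 p hp]
    exact M.alb p 0
  · refine ⟨G, M.diff, ?_, fun s hs => ⟨(M.ser s hs).1, (M.ser s hs).2, ?_, ?_⟩, fun s h1 h2 => M.phi s h1 h2⟩
    · obtain ⟨B, A, h⟩ := M.ord.order
      exact ⟨A, B, h⟩
    · rw [(M.ser s hs).2]
      exact M.ne hs
    · rw [(M.ser s hs).2]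
      convert! M.eul s hs using 1
      funext p
      rw [Fin.prod_univ_one, SP.af_apply, hp1 p p.2]

/-- the family -/
lemma exists_member {k : ℕ} (lam : Fin k → ℝ) (mu : Fin k → ℂ) (hl : ∀ j, 0 < lam j) (hm : ∀ j, 0 ≤ (mu j).re)
    (hd : 400 / 77 < 2 * ∑ j, lam j) : ∃ Q₀ : ℝ, ∀ Q : ℝ, Q₀ ≤ Q → ∀ ω : ℂ, ‖ω‖ = 1 →
    ∃ F : ArithmeticFunction ℂ, IsPoly F ∧ F ≠ 1 ∧ CompletelyMultiplicative F ∧ (∀ n, ‖F n‖ ≤ 1) ∧
        (∃ G : ℂ → ℂ, Differentiable ℂ G ∧ (∃ A B : ℝ, ∀ z : ℂ, ‖G z‖ ≤ A * Real.exp (‖z‖ ^ B)) ∧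
          (∀ s : ℂ, 277 / 400 < s.re → LSeriesSummable (fun n => F n) s ∧ G s = LSeries (fun n => F n) s ∧ G s ≠ 0 ∧
            HasProd (fun p : Nat.Primes => (1 - F p * ((p : ℕ) : ℂ) ^ (-s))⁻¹) (G s)) ∧
          ∀ s : ℂ, NoPole k lam mu s → NoPole k lam mu (1 - starRingEnd ℂ s) →
            Phi 0 G Q k lam mu s = ω * starRingEnd ℂ (Phi 0 G Q k lam mu (1 - starRingEnd ℂ s))) ∧
        (∀ P K : ArithmeticFunction ℂ, IsPoly P → IsPoly K → F = P * K →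
          CompletelyMultiplicative P ∧ (∀ p : ℕ, p.Prime → P p = F p ∨ P p = 0) ∧ ∃ C : ℝ, ∀ x : ℝ, S P x ≤ C) ∧
        Pool.Agent.H336R4.PF.Cls (fun n => F n) (2 * ∑ j, lam j) := by
  obtain ⟨Q₀, hQ₀, h⟩ := SP.family_cm hl hm hd
  refine ⟨Q₀, fun Q hQ ω hω => ?_⟩
  obtain ⟨f, al, P0, G, M⟩ := h Q hQ ω hω
  obtain ⟨h1, h2, h3, h4, h5, ⟨C, hC⟩, h7⟩ := member hl hm (by linarith) (by linarith) hω M
  refine ⟨SP.af f M.f0, h1, h2, h3, h4, h5, fun P K hP hK hPK => ?_, h7⟩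
  obtain ⟨h8, h9⟩ := SP.cm_div h3 ((isPoly_iff _).1 hP) ((isPoly_iff _).1 hK) hPK
  exact ⟨h8, h9, C, fun x => S_le (SP.sq_of_div hC h9) x⟩

end

/-- **Main theorem.** -/
theorem result :
    -- 1. factorisation into primitive elements of `𝒮^poly`
    (∀ F, IsPoly F → ∃ M : Multiset (ArithmeticFunction ℂ), (∀ P ∈ M, IsPrimitive P) ∧ M.prod = F) ∧
    -- 2. completely multiplicative elements with an arbitrary functional equation of degree `> 400/77`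
    (∀ (k : ℕ) (lam : Fin k → ℝ) (mu : Fin k → ℂ), (∀ j, 0 < lam j) → (∀ j, 0 ≤ (mu j).re) →
      400 / 77 < 2 * ∑ j, lam j → ∃ Q₀ : ℝ, ∀ Q : ℝ, Q₀ ≤ Q → ∀ ω : ℂ, ‖ω‖ = 1 →
      ∃ F : ArithmeticFunction ℂ, IsPoly F ∧ F ≠ 1 ∧ CompletelyMultiplicative F ∧ (∀ n, ‖F n‖ ≤ 1) ∧
        (∃ G : ℂ → ℂ, Differentiable ℂ G ∧ (∃ A B : ℝ, ∀ z : ℂ, ‖G z‖ ≤ A * Real.exp (‖z‖ ^ B)) ∧
          (∀ s : ℂ, 277 / 400 < s.re → LSeriesSummable (fun n => F n) s ∧ G s = LSeries (fun n => F n) s ∧ G s ≠ 0 ∧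
            HasProd (fun p : Nat.Primes => (1 - F p * ((p : ℕ) : ℂ) ^ (-s))⁻¹) (G s)) ∧
          ∀ s : ℂ, NoPole k lam mu s → NoPole k lam mu (1 - starRingEnd ℂ s) →
            Phi 0 G Q k lam mu s = ω * starRingEnd ℂ (Phi 0 G Q k lam mu (1 - starRingEnd ℂ s))) ∧
        ∀ P K : ArithmeticFunction ℂ, IsPoly P → IsPoly K → F = P * K →
          CompletelyMultiplicative P ∧ (∀ p : ℕ, p.Prime → P p = F p ∨ P p = 0) ∧ ∃ C : ℝ, ∀ x : ℝ, S P x ≤ C) ∧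
    -- 3. the normality conjecture fails in `𝒮^poly`, for uncountably many primitive elements
    ¬ {P : ArithmeticFunction ℂ | IsPrimitive P ∧ CompletelyMultiplicative P ∧ (∀ n, ‖P n‖ ≤ 1) ∧
        (∃ C : ℝ, ∀ x : ℝ, S P x ≤ C) ∧
        ¬ ∃ C x₀ : ℝ, ∀ x : ℝ, x₀ ≤ x → |S P x - Real.log (Real.log x)| ≤ C}.Countable := by
  classical
  have hfac : ∀ F, IsPoly F → ∃ M : Multiset (ArithmeticFunction ℂ), (∀ P ∈ M, IsPrimitive P) ∧ M.prod = F := by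
    intro F hF
    obtain ⟨M, h1, h2⟩ := Pool.Agent.H616.SP.factor_po ((isPoly_iff _).1 hF)
    exact ⟨M, fun P hP => (isPrimitive_iff P).2 (h1 P hP), h2⟩
  refine ⟨hfac, fun k lam mu hl hm hd => ?_, ?_⟩
  · obtain ⟨Q₀, hQ₀⟩ := exists_member lam mu hl hm hd
    refine ⟨Q₀, fun Q hQ ω hω => ?_⟩
    obtain ⟨F, h1, h2, h3, h4, h5, h6, -⟩ := hQ₀ Q hQ ω hω
    exact ⟨F, h1, h2, h3, h4, h5, h6⟩
  · have hex : ∀ d : ℝ, 400 / 77 < d → ∃ F : ArithmeticFunction ℂ,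
        (∃ M : Multiset (ArithmeticFunction ℂ), (∀ P ∈ M, P ∈ {P : ArithmeticFunction ℂ | IsPrimitive P ∧
          CompletelyMultiplicative P ∧ (∀ n, ‖P n‖ ≤ 1) ∧ (∃ C : ℝ, ∀ x : ℝ, S P x ≤ C) ∧
          ¬ ∃ C x₀ : ℝ, ∀ x : ℝ, x₀ ≤ x → |S P x - Real.log (Real.log x)| ≤ C}) ∧ M.prod = F) ∧
        Pool.Agent.H616.SP.IsSel F ∧ Pool.Agent.H336R4.PF.Cls (fun n => F n) d := by
      intro d hd
      have hsum : 2 * ∑ j, (fun _ : Fin 1 => d / 2) j = d := by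
        rw [Fin.sum_univ_one]; ring
      obtain ⟨Q₀, hQ₀⟩ := exists_member (fun _ : Fin 1 => d / 2) (fun _ => 0) (fun _ => by linarith)
        (fun _ => by simp) (by rw [hsum]; exact hd)
      obtain ⟨F, h1, h2, h3, h4, h5, h6, h7⟩ := hQ₀ Q₀ le_rfl 1 (by simp)
      rw [hsum] at h7
      obtain ⟨M, hM1, hM2⟩ := hfac F h1
      refine ⟨F, ⟨M, fun P hP => ?_, hM2⟩, ((isPoly_iff F).1 h1).1, h7⟩
      have hPK : F = P * (M.erase P).prod := by rw [Multiset.prod_erase hP, hM2]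
      obtain ⟨h8, h9, h10⟩ := h6 P (M.erase P).prod (hM1 P hP).1 ((isPoly_iff _).2
        (Pool.Agent.H616.SP.SPo.prod fun p hp => (isPoly_iff p).1 (hM1 p (Multiset.mem_of_mem_erase hp)).1)) hPK
      refine ⟨hM1 P hP, h8, ?_, h10, not_loglog h10⟩
      apply Pool.Agent.H616.SP.CM.norm_le h8 (hM1 P hP).1.1.one
      intro p hp
      rcases h9 p hp with h | h
      · rw [h]; exact h4 p
      · rw [h]; simp
    choose! F hF1 hF2 hF3 using hex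
    exact Pool.Agent.H616.SP.uncountable_of_prod F
      (fun d d' hd hd' h => Pool.Agent.H616.SP.deg_unique (hF2 d hd) (hF3 d hd) (by rw [h]; exact hF3 d' hd')) hF1

end Pool.Agent.Results.MP_8e9775_nt.PolynomialSelbergClass
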