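import Pool.Agent.H500.LV.Sel
import Pool.Agent.H500.LV.Rat

set_option autoImplicit false
set_option linter.unusedSectionVars false

/-!
# Selberg's sum for `L`-functions whose Frobenius polynomials have solvable residual images

Let `F = ∑ a(n) n^(-s)` be in the Selberg class (or any Dirichlet series), and suppose that for the
primes `p ∤ N` the coefficient `a p` is the sum of the zeros of `P p`, divided by `p^(w/2)`, where
`P p` has coefficients in the ring of integers of a number field `E ⊂ ℂ`.  Suppose that for a set of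
primes `λ` of `E` of positive upper density there is a residual representation of dimension `n` of the
absolute Galois group of `ℚ` with SOLVABLE image, unramified at the primes `p ∤ N` which are not in `λ`,
with characteristic polynomial `P p` modulo `λ` at the geometric Frobenius elements.

Then `∑_{p ≤ x} |a p|² / p = m log log x + O(1)` with a positive integer `m` (Selberg's conjecture on the
number `n_F`), and `m` is the dimension of the space of endomorphisms of every `ℓ-adic` representation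
attached to `P`, for every `ℓ` (these exist): `m = 1`, the asymptotic formula of Q1, holds if and only if
the `ℓ-adic` representations attached to `F` are irreducible (for one or, equivalently, for all `ℓ`).
-/

namespace Pool.Agent.Results.MP_8e9775_nt.SolvableResidualImages

open NumberField IsDedekindDomain Filter Topology Polynomial
open Pool.Agent.W401.Cheb (GK IsFrob IsInert dens)
open Pool.Agent.H500.ME (Att)
open Pool.Agent.H500.ED (SRes PQ norm_spec norm_eq mem_iff)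
open Pool.Agent.H500.LV (Irreducible Commutant)

theorem place_of {p : ℕ} (hp : p.Prime) :
    ∃ v : HeightOneSpectrum (𝓞 ℚ), Ideal.absNorm v.asIdeal = p := by
  obtain ⟨Q, hQ, hpQ⟩ : ∃ Q : Ideal (𝓞 ℚ), Q.IsMaximal ∧ (p : 𝓞 ℚ) ∈ Q := by
    have h2 : Ideal.span {(p : 𝓞 ℚ)} ≠ ⊤ := by
      intro h
      have h3 := congrArg Ideal.absNorm h
      rw [Ideal.absNorm_span_natCast, RingOfIntegers.rank, Module.finrank_self, pow_one,
        Ideal.absNorm_top] at h3
      exact hp.one_lt.ne' h3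
    obtain ⟨Q, hQ, hle⟩ := Ideal.exists_le_maximal _ h2
    exact ⟨Q, hQ, hle (Ideal.mem_span_singleton_self _)⟩
  have hQ0 : Q ≠ ⊥ := by
    rintro rfl
    rw [Ideal.mem_bot] at hpQ
    exact hp.ne_zero (by exact_mod_cast hpQ)
  exact ⟨⟨Q, hQ.isPrime, hQ0⟩, norm_eq hp hpQ⟩

theorem sum_places (f : ℕ → ℂ) (x : ℕ) :
    ∑ v ∈ Pool.Agent.H500.ME.pl ℚ x, f (Ideal.absNorm v.asIdeal) =
      ∑ p ∈ Finset.range (x + 1) with p.Prime, f p := by
  classical
  have hmem : ∀ v : HeightOneSpectrum (𝓞 ℚ), v ∈ Pool.Agent.H500.ME.pl ℚ x ↔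
      Ideal.absNorm v.asIdeal ≤ x := by
    intro v
    unfold Pool.Agent.H500.ME.pl
    rw [Set.Finite.mem_toFinset]
    rfl
  refine Finset.sum_bij (fun v _ => Ideal.absNorm v.asIdeal) ?_ ?_ ?_ ?_
  · intro v hv
    rw [Finset.mem_filter, Finset.mem_range]
    exact ⟨Nat.lt_succ_of_le ((hmem v).1 hv), (norm_spec v).1⟩
  · intro v _ v' _ h
    apply HeightOneSpectrum.ext
    rw [Pool.Agent.H500.LV.span_rat v, Pool.Agent.H500.LV.span_rat v']
    rw [h]
  · intro p hp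
    rw [Finset.mem_filter, Finset.mem_range] at hp
    obtain ⟨v, hv⟩ := place_of hp.2
    exact ⟨v, (hmem v).2 (by rw [hv]; exact Nat.lt_succ_iff.1 hp.1), hv⟩
  · intro v _
    rfl

theorem result (E : Type) [Field E] [NumberField E] (τ : E →+* ℂ) (N n : ℕ)
    (hN : 2 ≤ N) (hn : 0 < n) (P : ℕ → (𝓞 E)[X])
    (h : ¬ Tendsto (dens (SRes N n P)) atTop (𝓝 0)) (w : ℤ) (q₀ : ℕ) (hq₀ : q₀.Prime)
    (hq₀N : ¬ q₀ ∣ N)
    (hJS : ∀ z ∈ ((P q₀).map (τ.comp (algebraMap (𝓞 E) E))).roots,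
      (q₀ : ℝ) ^ (((w : ℝ) - 1) / 2) < ‖z‖ ∧ ‖z‖ < (q₀ : ℝ) ^ (((w : ℝ) + 1) / 2))
    (a : ℕ → ℂ)
    (ha : ∀ p : ℕ, p.Prime → ¬ p ∣ N →
      a p = τ (-((P p).nextCoeff : E)) / (((p : ℝ) ^ ((w : ℝ) / 2) : ℝ) : ℂ)) :
    ∃ m : ℕ, 0 < m ∧
      (∃ C : ℝ, ∀ᶠ x : ℕ in atTop,
        |∑ p ∈ Finset.range (x + 1) with p.Prime, ‖a p‖ ^ 2 / p -
          m * Real.log (Real.log x)| ≤ C) ∧
      ∀ (ℓ : ℕ) [Fact ℓ.Prime] (κ : E →+* PadicAlgCl ℓ),
        (∃ ρ : GK ℚ →* GL (Fin n) (PadicAlgCl ℓ), Att N n (PQ P) ℓ κ ρ) ∧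
        ∀ ρ : GK ℚ →* GL (Fin n) (PadicAlgCl ℓ), Att N n (PQ P) ℓ κ ρ →
          Module.finrank (PadicAlgCl ℓ) (Commutant ρ) = m ∧ (m = 1 ↔ Irreducible ρ) := by
  classical
  have hP : Pool.Agent.H500.MW.PosUD (Pool.Agent.H500.TH.SolRes (K := ℚ) N n (PQ P)) :=
    Pool.Agent.H500.MW.PosUD.mono (Pool.Agent.H500.MW.posUD_of_not h) fun _ hv => hv.solRes
  have hval : ∀ v : HeightOneSpectrum (𝓞 ℚ), PQ P v = P (Ideal.absNorm v.asIdeal) :=
    fun v => rfl
  -- purity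
  have hpure : ∀ v : HeightOneSpectrum (𝓞 ℚ), (N : 𝓞 ℚ) ∉ v.asIdeal →
      ∀ z ∈ ((PQ P v).map (τ.comp (algebraMap (𝓞 E) E))).roots,
        ‖z‖ = (Ideal.absNorm v.asIdeal : ℝ) ^ ((w : ℝ) / 2) := by
    intro v hv z hz
    obtain ⟨v₀, hv₀⟩ := place_of hq₀
    obtain ⟨m, hm⟩ := Pool.Agent.H500.ME.ram N n hN (PQ P) hP
    have hv₀N : (N : 𝓞 ℚ) ∉ v₀.asIdeal := fun h => hq₀N (by
      rw [← hv₀]
      exact (mem_iff v₀ N).1 h)
    have hmw : ∀ i, m i = w := by
      intro i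
      obtain ⟨α, hα, hα2⟩ := hm τ v₀ hv₀N
      have h1 : α i ∈ ((PQ P v₀).map (τ.comp (algebraMap (𝓞 E) E))).roots := by
        rw [hα, mem_roots (monic_prod_of_monic _ _ fun k _ => monic_X_sub_C _).ne_zero, IsRoot,
          eval_prod]
        exact Finset.prod_eq_zero (Finset.mem_univ i) (by simp)
      rw [hval, hv₀] at h1
      obtain ⟨h2, h3⟩ := hJS _ h1
      rw [hα2, hv₀] at h2 h3
      have hone : (1 : ℝ) < (q₀ : ℝ) := by exact_mod_cast hq₀.one_lt
      rw [Real.rpow_lt_rpow_left_iff hone] at h2 h3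
      have h4 : ((w - 1 : ℤ) : ℝ) < (m i : ℝ) := by push_cast; linarith
      have h5 : (m i : ℝ) < ((w + 1 : ℤ) : ℝ) := by push_cast; linarith
      have h6 : w - 1 < m i := by exact_mod_cast h4
      have h7 : m i < w + 1 := by exact_mod_cast h5
      omega
    obtain ⟨α, hα, hα2⟩ := hm τ v hv
    rw [hα, Polynomial.mem_roots', IsRoot, Polynomial.eval_prod, Finset.prod_eq_zero_iff] at hz
    obtain ⟨-, i, -, hi⟩ := hz
    rw [Polynomial.eval_sub, Polynomial.eval_X, Polynomial.eval_C, sub_eq_zero] at hi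
    rw [hi, hα2 i, hmw i]
  obtain ⟨m, hm0, hMV, hall⟩ := Pool.Agent.H500.LV.selberg N n hN hn (PQ P) hP w τ hpure
  refine ⟨m, hm0, ?_, hall⟩
  have hMV2 : Pool.Agent.H500.ME.MV (fun v : HeightOneSpectrum (𝓞 ℚ) =>
      ((‖a (Ideal.absNorm v.asIdeal)‖ ^ 2 : ℝ) : ℂ)) (m : ℂ) := by
    refine (Pool.Agent.H500.ME.all_MVB ℚ).2.2.2 _ _ _ hMV ?_
    filter_upwards [Pool.Agent.H500.ME.ev_not_mem (K := ℚ) (N := N) (by omega)] with v hv
    have hpos : (0 : ℝ) < (Ideal.absNorm v.asIdeal : ℝ) := Pool.Agent.H358.ME.ACM.norm_pos v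
    rw [Pool.Agent.H500.ME.GV_pos hv, ha _ (norm_spec v).1 fun h => hv ((mem_iff v N).2 h),
      norm_div, Complex.norm_real, Real.norm_of_nonneg (Real.rpow_nonneg hpos.le _), div_pow,
      map_neg, norm_neg]
    congr 2
    rw [← Real.rpow_natCast, ← Real.rpow_mul hpos.le]
    congr 1
    push_cast
    ring
  obtain ⟨C, hC⟩ := Pool.Agent.H500.LV.mertens_of hMV2
  refine ⟨C, ?_⟩
  filter_upwards [hC] with x hx
  have h1 : ∑ v ∈ Pool.Agent.H500.ME.pl ℚ x,
      ((‖a (Ideal.absNorm v.asIdeal)‖ ^ 2 : ℝ) : ℂ) / (Ideal.absNorm v.asIdeal : ℂ) =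
      ((∑ p ∈ Finset.range (x + 1) with p.Prime, ‖a p‖ ^ 2 / p : ℝ) : ℂ) := by
    rw [sum_places (fun p => ((‖a p‖ ^ 2 : ℝ) : ℂ) / (p : ℂ)) x]
    push_cast
    rfl
  rw [h1] at hx
  have h2 : ((∑ p ∈ Finset.range (x + 1) with p.Prime, ‖a p‖ ^ 2 / p : ℝ) : ℂ) -
      (m : ℂ) * ((Real.log (Real.log x) : ℝ) : ℂ) =
      ((∑ p ∈ Finset.range (x + 1) with p.Prime, ‖a p‖ ^ 2 / p -
          m * Real.log (Real.log x) : ℝ) : ℂ) := by
    push_cast
    rfl
  rw [h2, Complex.norm_real, Real.norm_eq_abs] at hx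
  exact hx

end Pool.Agent.Results.MP_8e9775_nt.SolvableResidualImages
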